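import Pool.Agent.HypLin.Final

/-!
# Total domination in graphs of minimum degree at least five without 4-cycles

Every finite graph with minimum degree at least five in which any two distinct vertices have at most
one common neighbour (no 4-cycle) has a total dominating set of size at most `1165 n / 3213`, which is
less than `4 n / 11` for `n > 0`.
-/

set_option autoImplicit false

namespace Pool.Agent.Results.MP_f665f6_co.NoFourCycles

theorem result {V : Type*} [Fintype V] (G : SimpleGraph V) [DecidableRel G.Adj]
    (h : 5 ≤ G.minDegree) (h4 : ∀ v w : V, v ≠ w → (G.commonNeighbors v w).Subsingleton) :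
    ∃ S : Finset V, (∀ v : V, ∃ u ∈ S, G.Adj v u) ∧ 3213 * S.card ≤ 1165 * Fintype.card V :=
  Pool.Agent.HypLin.total_domination_c4 G h h4

end Pool.Agent.Results.MP_f665f6_co.NoFourCycles
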