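import Pool.Agent.Hyp5.Final

/-!
# Total domination in graphs of minimum degree at least five

Every finite graph with minimum degree at least five has a total dominating set of size at most
`19 n / 51`.
-/

set_option autoImplicit false

namespace Pool.Agent.Results.MP_f665f6_co.TotalDominationBound

theorem result {V : Type*} [Fintype V] (G : SimpleGraph V) [DecidableRel G.Adj]
    (h : 5 ≤ G.minDegree) :
    ∃ S : Finset V, (∀ v : V, ∃ u ∈ S, G.Adj v u) ∧ 51 * S.card ≤ 19 * Fintype.card V :=
  Pool.Agent.Hyp5.total_domination G h

end Pool.Agent.Results.MP_f665f6_co.TotalDominationBound
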